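import Pool.Agent.Lib.ALLO.Defs

/-!
# TANK G, track L, row 3.1 (tower): the Galois theory of the tower of the roots
-/

set_option autoImplicit false

namespace Pool.Agent.TGL85

open Pool.Agent.TAO (OVal VPos)
open Pool.Agent.LU1 (FracIs fixO mem_fixO)
open Pool.Agent.ALLO (locv icl ICl decP)

universe u w

variable {k Ω : Type u} [Field k] [Field Ω] [Algebra k Ω]

/-! ### The fields `K₀(T)` -/

/-- `K₀(T)`, as an extension of `k`. -/
noncomputable def KT (K₀ : IntermediateField k Ω) (T : Set Ω) : IntermediateField k Ω :=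
  (IntermediateField.adjoin K₀ T).restrictScalars k

theorem le_KT (K₀ : IntermediateField k Ω) (T : Set Ω) : K₀ ≤ KT K₀ T := fun x hx =>
  (IntermediateField.adjoin K₀ T).algebraMap_mem ⟨x, hx⟩

theorem subset_KT (K₀ : IntermediateField k Ω) (T : Set Ω) : ∀ x ∈ T, x ∈ KT K₀ T := fun _ hx =>
  IntermediateField.subset_adjoin K₀ T hx

theorem KT_le {K₀ M : IntermediateField k Ω} {T : Set Ω} (h0 : K₀ ≤ M) (hT : ∀ x ∈ T, x ∈ M) :
    KT K₀ T ≤ M := by
  have h1 : IntermediateField.adjoin K₀ T ≤ IntermediateField.extendScalars h0 :=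
    IntermediateField.adjoin_le_iff.2 hT
  exact fun x hx => h1 hx

theorem KT_empty (K₀ : IntermediateField k Ω) : KT K₀ ∅ = K₀ :=
  le_antisymm (KT_le le_rfl fun _ hx => absurd hx (Set.notMem_empty _)) (le_KT _ _)

theorem KT_insert (K₀ : IntermediateField k Ω) (T : Set Ω) (ζ : Ω) :
    KT (KT K₀ T) {ζ} = KT K₀ (insert ζ T) := by
  apply le_antisymm
  · refine KT_le (KT_le (le_KT _ _) fun x hx => subset_KT _ _ x (Set.mem_insert_of_mem _ hx)) ?_
    intro x hx
    rw [Set.mem_singleton_iff.1 hx]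
    exact subset_KT _ _ _ (Set.mem_insert _ _)
  · refine KT_le ((le_KT _ _).trans (le_KT _ _)) ?_
    intro x hx
    rcases Set.mem_insert_iff.1 hx with rfl | hx
    · exact subset_KT _ _ _ (Set.mem_singleton _)
    · exact le_KT _ _ (subset_KT _ _ x hx)

theorem KT_mono (K₀ : IntermediateField k Ω) {S T : Set Ω} (h : S ⊆ T) : KT K₀ S ≤ KT K₀ T :=
  KT_le (le_KT _ _) fun x hx => subset_KT _ _ x (h hx)

/-! ### Going up from `K₀` to `K₁` -/

section Up

variable {K₀ K₁ : IntermediateField k Ω} {L : IntermediateField K₀ Ω}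

/-- `L` as an extension of `K₁`. -/
noncomputable abbrev upN (L : IntermediateField K₀ Ω) (h1 : K₁ ≤ L.restrictScalars k) :
    IntermediateField K₁ Ω := IntermediateField.extendScalars h1

theorem mem_upN {h1 : K₁ ≤ L.restrictScalars k} {a : Ω} : a ∈ upN L h1 ↔ a ∈ L := Iff.rfl

variable (h0 : K₀ ≤ K₁) (h1 : K₁ ≤ L.restrictScalars k)

include h0 in
theorem finGal_upN [FiniteDimensional K₀ L] [IsGalois K₀ L] :
    FiniteDimensional K₁ (upN L h1) ∧ IsGalois K₁ (upN L h1) := by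
  let _ : Algebra K₀ K₁ := (IntermediateField.inclusion h0).toRingHom.toAlgebra
  let _ : Algebra K₀ (upN L h1) :=
    ((algebraMap K₁ (upN L h1)).comp (IntermediateField.inclusion h0).toRingHom).toAlgebra
  have hst : IsScalarTower K₀ K₁ (upN L h1) := IsScalarTower.of_algebraMap_eq fun _ => rfl
  let e : L ≃ₐ[K₀] upN L h1 :=
    { toFun := fun a => ⟨a, a.2⟩
      invFun := fun a => ⟨a, a.2⟩
      left_inv := fun _ => rfl
      right_inv := fun _ => rfl
      map_mul' := fun _ _ => rfl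
      map_add' := fun _ _ => rfl
      commutes' := fun _ => rfl }
  have hf : FiniteDimensional K₀ (upN L h1) := e.toLinearEquiv.finiteDimensional
  have hg : IsGalois K₀ (upN L h1) := IsGalois.of_algEquiv e
  exact ⟨FiniteDimensional.right K₀ K₁ (upN L h1), IsGalois.tower_top_of_isGalois K₀ K₁ (upN L h1)⟩

/-- The restriction of the automorphisms over `K₁` to automorphisms over `K₀`. -/
noncomputable def res (h0 : K₀ ≤ K₁) (h1 : K₁ ≤ L.restrictScalars k)
    (σ : upN L h1 ≃ₐ[K₁] upN L h1) : L ≃ₐ[K₀] L where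
  toFun a := ⟨(σ ⟨a, a.2⟩ : Ω), (σ ⟨a, a.2⟩).2⟩
  invFun a := ⟨(σ.symm ⟨a, a.2⟩ : Ω), (σ.symm ⟨a, a.2⟩).2⟩
  left_inv a := Subtype.ext (by
    change ((σ.symm (σ (⟨(a : Ω), a.2⟩ : upN L h1)) : upN L h1) : Ω) = a
    rw [AlgEquiv.symm_apply_apply])
  right_inv a := Subtype.ext (by
    change ((σ (σ.symm (⟨(a : Ω), a.2⟩ : upN L h1)) : upN L h1) : Ω) = a
    rw [AlgEquiv.apply_symm_apply])
  map_mul' a b := Subtype.ext (congrArg Subtype.val
    (map_mul σ (⟨(a : Ω), a.2⟩ : upN L h1) ⟨(b : Ω), b.2⟩))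
  map_add' a b := Subtype.ext (congrArg Subtype.val
    (map_add σ (⟨(a : Ω), a.2⟩ : upN L h1) ⟨(b : Ω), b.2⟩))
  commutes' c := Subtype.ext (congrArg Subtype.val (σ.commutes ⟨(c : Ω), h0 c.2⟩))

theorem res_apply (σ : upN L h1 ≃ₐ[K₁] upN L h1) (a : L) :
    ((res h0 h1 σ a : L) : Ω) = (σ ⟨a, a.2⟩ : upN L h1) := rfl

theorem res_symm_apply (σ : upN L h1 ≃ₐ[K₁] upN L h1) (a : L) :
    (((res h0 h1 σ).symm a : L) : Ω) = (σ.symm ⟨a, a.2⟩ : upN L h1) := rfl

/-- Conjugates over `K₀` of elements integral over `R ≤ K₀`. -/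
theorem int_conj {R : Subalgebra k Ω} (hR : ∀ f ∈ R, f ∈ K₀) (τ : L ≃ₐ[K₀] L) {a : L}
    (ha : IsIntegral R (a : Ω)) : IsIntegral R ((τ a : L) : Ω) := by
  obtain ⟨P, hP, hPa⟩ := ha
  refine ⟨P, hP, ?_⟩
  let f : R →+* L := ⟨⟨⟨fun b => algebraMap K₀ L ⟨(b : Ω), hR b b.2⟩, map_one _⟩,
    fun _ _ => rfl⟩, rfl, fun _ _ => rfl⟩
  have h1 : (algebraMap L Ω).comp f = algebraMap R Ω := rfl
  have h2 : Polynomial.eval₂ f a P = 0 := by
    apply (algebraMap L Ω).injective
    rw [Polynomial.hom_eval₂, h1, map_zero]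
    exact hPa
  have h3 : (τ : L →+* L).comp f = f := by
    ext b
    exact congrArg Subtype.val (τ.commutes ⟨(b : Ω), hR b b.2⟩)
  have h4 := congrArg (algebraMap L Ω) (congrArg (τ : L →+* L) h2)
  rw [Polynomial.hom_eval₂, h3, Polynomial.hom_eval₂, h1, map_zero, map_zero] at h4
  exact h4

variable {𝕂 : Type w} [Field 𝕂] [LinearOrder 𝕂] [IsStrictOrderedRing 𝕂] {v : OVal 𝕂 Ω}

/-- (C2) -/
theorem res_mem_decP {R R₁ : Subalgebra k Ω} (hR : ∀ f ∈ R, f ∈ K₀) (hle : R ≤ R₁)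
    {σ : upN L h1 ≃ₐ[K₁] upN L h1} (hσ : σ ∈ decP v R₁ K₁ (upN L h1)) :
    res h0 h1 σ ∈ decP v R K₀ L := by
  intro a ha
  refine ⟨int_conj hR _ ha, int_conj hR _ ha, ?_⟩
  have h2 : IsIntegral R₁ (a : Ω) := by
    obtain ⟨P, hP, hPa⟩ := ha
    refine ⟨P.map (Subalgebra.inclusion hle).toRingHom, hP.map _, ?_⟩
    rw [Polynomial.eval₂_map]
    exact hPa
  exact (hσ (⟨(a : Ω), a.2⟩ : upN L h1) h2).2.2

end Up

/-! ### The fixed field of the stabiliser of an element -/

section Fix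

variable {K : IntermediateField k Ω} {N : IntermediateField K Ω}

/-- The stabiliser of an element. -/
def St (N : IntermediateField K Ω) (ζ : N) : Subgroup (N ≃ₐ[K] N) where
  carrier := {σ | σ ζ = ζ}
  mul_mem' := by
    intro σ τ hσ hτ
    change σ (τ ζ) = ζ
    rw [hτ, hσ]
  one_mem' := rfl
  inv_mem' := by
    intro σ hσ
    change σ.symm ζ = ζ
    rw [AlgEquiv.symm_apply_eq]
    exact (hσ : σ ζ = ζ).symm

theorem mem_St {ζ : N} {σ : N ≃ₐ[K] N} : σ ∈ St N ζ ↔ σ ζ = ζ := Iff.rfl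

/-- (C3), the fixed field. -/
theorem fixO_St [FiniteDimensional K N] [IsGalois K N] (ζ : N) :
    fixO K N (St N ζ) = KT K {(ζ : Ω)} := by
  have h1 : St N ζ = (IntermediateField.adjoin K ({ζ} : Set N)).fixingSubgroup := by
    ext σ
    rw [mem_St, IntermediateField.mem_fixingSubgroup_iff]
    constructor
    · intro h x hx
      induction hx using IntermediateField.adjoin_induction with
      | mem x hx => rw [Set.mem_singleton_iff.1 hx]; exact h
      | algebraMap c => exact σ.commutes c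
      | add x y _ _ hx hy => rw [map_add, hx, hy]
      | inv x _ hx => rw [map_inv₀, hx]
      | mul x y _ _ hx hy => rw [map_mul, hx, hy]
    · intro h
      exact h ζ (IntermediateField.subset_adjoin _ _ (Set.mem_singleton _))
  have h2 : IntermediateField.fixedField (St N ζ) = IntermediateField.adjoin K ({ζ} : Set N) := by
    rw [h1, IsGalois.fixedField_fixingSubgroup]
  unfold fixO
  rw [h2, IntermediateField.adjoin_map, Set.image_singleton]
  rfl

/-- (C3), the index. -/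
theorem relIndex_St_le (G : Subgroup (N ≃ₐ[K] N)) (ζ : N) {S : Set Ω} (hS : S.Finite)
    (h : ∀ σ ∈ G, ((σ ζ : N) : Ω) ∈ S) : (St N ζ).relIndex G ≤ S.ncard := by
  have h1 : (St N ζ).subgroupOf G = MulAction.stabilizer G ζ := by
    ext σ
    rw [Subgroup.mem_subgroupOf, mem_St, MulAction.mem_stabilizer_iff]
    rfl
  rw [Subgroup.relIndex, h1, MulAction.index_stabilizer]
  have h2 : (Subtype.val : N → Ω) '' (MulAction.orbit G ζ) ⊆ S := by
    rintro _ ⟨_, ⟨σ, rfl⟩, rfl⟩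
    exact h σ σ.2
  rw [← Set.ncard_image_of_injective _ Subtype.val_injective]
  exact Set.ncard_le_ncard h2 hS

end Fix

end Pool.Agent.TGL85
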