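import Pool.Agent.Lib.TGL.Defs
import Pool.Agent.Lib.TGB_h66.PDisc
import Pool.Agent.Lib.TGL_h85.Gal

/-!
# TANK G, track L, row 3.1: the tower of the roots

`K₀(T)` for finite sets `T` of roots of `A`: the localised normalisation of the ring of a limit
frame of `K₀` in `K₀(T)` is the ring of a limit frame, if the orbits of the decomposition group on
the roots have less than `p` elements and the roots and the inverses of their differences are
integral outside the monomials.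
-/

set_option autoImplicit false

open Polynomial

namespace Pool.Agent.TGL85

open Pool.Agent.TAO (OVal VPos)
open Pool.Agent.LU1 (FracIs fixO mem_fixO)
open Pool.Agent.ALLO (locv icl ICl decP)
open Pool.Agent.ALLZO (GoodBasis)
open Pool.Agent.TGL (LF mon)
open Pool.Agent.TGBh66 (invS PC Nrm mem_invS le_invS invS_mono isIntegral_mono isIntegral_of_mem
  le_ICl ICl_ICl pcoord_disc)

universe u w

variable {k Ω : Type u} [Field k] [Field Ω] [Algebra k Ω]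
  {𝕂 : Type w} [Field 𝕂] [LinearOrder 𝕂] [IsStrictOrderedRing 𝕂] {v : OVal 𝕂 Ω} {r D : ℕ}

/-! ### Monomials -/

theorem χ_zero (B : LF k v r D) : B.χ 0 = 1 := by
  have h1 := B.χ_add 0 B.Γ.zero_mem 0 B.Γ.zero_mem
  rw [add_zero] at h1
  exact (mul_eq_left₀ (B.χ_ne 0 B.Γ.zero_mem)).1 h1.symm

theorem χ_neg (B : LF k v r D) {γ : 𝕂} (hγ : γ ∈ B.Γ) : B.χ (-γ) = (B.χ γ)⁻¹ := by
  have h1 := B.χ_add γ hγ (-γ) (B.Γ.neg_mem hγ)
  rw [add_neg_cancel, χ_zero] at h1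
  exact eq_inv_of_mul_eq_one_right h1.symm

/-- The monoid (a group) of the monomials of a frame. -/
def XS (B : LF k v r D) : Submonoid Ω where
  carrier := {x | ∃ γ ∈ B.Γ, x = B.χ γ}
  mul_mem' := by
    rintro _ _ ⟨γ, hγ, rfl⟩ ⟨δ, hδ, rfl⟩
    exact ⟨γ + δ, B.Γ.add_mem hγ hδ, (B.χ_add γ hγ δ hδ).symm⟩
  one_mem' := ⟨0, B.Γ.zero_mem, (χ_zero B).symm⟩

theorem XS_ne (B : LF k v r D) : ∀ x ∈ XS B, x ≠ 0 := by
  rintro _ ⟨γ, hγ, rfl⟩
  exact B.χ_ne γ hγ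

theorem mem_invS_iff {B : LF k v r D} {A : Subalgebra k Ω} (hA : B.R ≤ A) {f : Ω} :
    f ∈ invS A (XS B) ↔ B.InX A f := by
  constructor
  · rintro ⟨_, ⟨γ, hγ, rfl⟩, -, h1⟩
    exact ⟨γ, hγ, h1⟩
  · rintro ⟨γ, hγ, h1⟩
    rcases le_total 0 γ with h0 | h0
    · exact ⟨_, ⟨γ, hγ, rfl⟩, hA (B.χ_mem γ hγ h0), h1⟩
    · refine ⟨1, (XS B).one_mem, A.one_mem, ?_⟩
      have h2 : (1 : Ω) * f = B.χ (-γ) * (B.χ γ * f) := by
        rw [χ_neg B hγ, inv_mul_cancel_left₀ (B.χ_ne γ hγ), one_mul]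
      rw [h2]
      exact A.mul_mem (hA (B.χ_mem _ (B.Γ.neg_mem hγ) (by linarith))) h1

theorem Un_inv {B : LF k v r D} {f : Ω} (hf : B.Un f) : f⁻¹ ∈ B.R := B.loc f hf.1 hf.2.1 hf.2.2

theorem ext_inX {B C : LF k v r D} (h : B.Ext C) {A A' : Subalgebra k Ω} (hAA : A ≤ A')
    (hC : C.R ≤ A') {f : Ω} (hf : B.InX A f) : C.InX A' f := by
  obtain ⟨γ, hγ, h1⟩ := hf
  refine ⟨γ, h.Γ_le γ hγ, ?_⟩
  have h2 := Un_inv (h.χ_un γ hγ)
  have h3 : C.χ γ * f = (B.χ γ / C.χ γ)⁻¹ * (B.χ γ * f) := by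
    have := B.χ_ne γ hγ
    have := C.χ_ne γ (h.Γ_le γ hγ)
    field_simp
  rw [h3]
  exact A'.mul_mem (hC h2) (hAA h1)

theorem ext_int {B C : LF k v r D} (h : B.Ext C) {f : Ω}
    (hf : IsIntegral (invS B.R (XS B)) f) : IsIntegral (invS C.R (XS C)) f :=
  isIntegral_mono (fun _ hg => (mem_invS_iff le_rfl).2
    (ext_inX h h.le le_rfl ((mem_invS_iff le_rfl).1 hg))) hf

theorem ext_refl (B : LF k v r D) : B.Ext B where
  Γ_le := fun _ h => h
  χ_un := fun γ hγ => by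
    rw [div_self (B.χ_ne γ hγ)]
    exact ⟨B.R.one_mem, one_ne_zero, v.map_one⟩
  y_eq := rfl
  le := le_rfl
  tors := fun γ hγ => ⟨1, one_pos, by rw [Nat.cast_one, one_mul]; exact hγ⟩

theorem ext_trans {B C E : LF k v r D} (h : B.Ext C) (h' : C.Ext E) : B.Ext E where
  Γ_le := fun γ hγ => h'.Γ_le γ (h.Γ_le γ hγ)
  χ_un := fun γ hγ => by
    have h1 := h.χ_un γ hγ
    have h2 := h'.χ_un γ (h.Γ_le γ hγ)
    have h3 : B.χ γ / E.χ γ = (B.χ γ / C.χ γ) * (C.χ γ / E.χ γ) := by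
      have := C.χ_ne γ (h.Γ_le γ hγ)
      field_simp
    rw [h3]
    exact ⟨E.R.mul_mem (h'.le h1.1) h2.1, mul_ne_zero h1.2.1 h2.2.1, by
      rw [v.map_mul h1.2.1 h2.2.1, h1.2.2, h2.2.2, add_zero]⟩
  y_eq := h'.y_eq.trans h.y_eq
  le := h.le.trans h'.le
  tors := fun γ hγ => by
    obtain ⟨e, he, h1⟩ := h'.tors γ hγ
    obtain ⟨e', he', h2⟩ := h.tors _ h1
    refine ⟨e' * e, Nat.mul_pos he' he, ?_⟩
    rw [Nat.cast_mul, mul_assoc]
    exact h2

/-! ### Localised normalisations -/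

theorem frac_ICl {R : Subalgebra k Ω} {K E : IntermediateField k Ω} (hR : FracIs R K)
    (hKE : K ≤ E) (halg : ∀ g ∈ E, IsAlgebraic K g) : FracIs (ICl v R E) E := by
  refine ⟨?_, fun g hg => ?_⟩
  · rintro f ⟨a, ha, s, hs, -, -, rfl⟩
    exact div_mem (S := IntermediateField k Ω) ha.1 hs.1
  · have h2 : IsAlgebraic R g := Pool.Agent.LU1.isAlgebraic_of_frac hR (halg g hg)
    obtain ⟨y, hy0, hy⟩ := h2.exists_integral_multiple
    have hy1 : (y : Ω) ≠ 0 := fun h0 => hy0 (Subtype.ext h0)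
    have hyE : (y : Ω) ∈ E := hKE (hR.1 y y.2)
    refine ⟨(y : Ω) * g, ?_, y, ?_, hy1, by field_simp⟩
    · exact ALLZO.le_locv _ ⟨mul_mem (S := IntermediateField k Ω) hyE hg, hy⟩
    · exact ALLZO.le_locv _ ⟨hyE, isIntegral_of_mem y.2⟩

theorem ICl_self (B : LF k v r D) {K : IntermediateField k Ω} (hB : FracIs B.R K)
    (hN : Nrm B.R K) : ICl v B.R K = B.R := by
  apply le_antisymm
  · exact ALLZO.locv_le (fun f hf => hN f hf.1 hf.2) B.loc
  · exact le_ICl hB.1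

theorem trdeg_eq_of_alg {K E : IntermediateField k Ω} (hKE : K ≤ E)
    (halg : ∀ g ∈ E, IsAlgebraic K g) : Algebra.trdeg k E = Algebra.trdeg k K := by
  let _ : Algebra K E := (IntermediateField.inclusion hKE).toRingHom.toAlgebra
  have h1 : IsScalarTower k K E := IsScalarTower.of_algebraMap_eq fun _ => rfl
  have h2 : IsScalarTower K E Ω := IsScalarTower.of_algebraMap_eq fun _ => rfl
  have h3 : Algebra.IsAlgebraic K E := ⟨fun g => by
    have h4 := halg g g.2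
    exact (isAlgebraic_algebraMap_iff (algebraMap E Ω).injective).1 h4⟩
  obtain ⟨ι, x, hx⟩ := exists_isTranscendenceBasis' k K
  rw [← hx.cardinalMk_eq_trdeg, ← (hx.algebraMap_comp (A := E)).cardinalMk_eq_trdeg]

/-! ### The tower -/

variable (k) in
/-- The facts on limit frames which are used: the ring of a frame is normal, it has
`p`-coordinates, and block Z. -/
structure Core (v : OVal 𝕂 Ω) (p r D : ℕ) : Prop where
  nrm : ∀ (B : LF k v r D) (K : IntermediateField k Ω), FracIs B.R K →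
    Algebra.trdeg k K = ((r + D : ℕ) : Cardinal.{u}) → Nrm B.R K
  coord : ∀ (B : LF k v r D) (K : IntermediateField k Ω), FracIs B.R K →
    Algebra.trdeg k K = ((r + D : ℕ) : Cardinal.{u}) → B.Coord p B.R
  z : ∀ (B : LF k v r D) (K : IntermediateField k Ω) (N : IntermediateField K Ω)
    [FiniteDimensional K N] [IsGalois K N] (H : Subgroup (N ≃ₐ[K] N)), FracIs B.R K →
    Algebra.trdeg k K = ((r + D : ℕ) : Cardinal.{u}) → H.relIndex (decP v B.R K N) < p →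
    B.Coord p (ICl v B.R (fixO K N H)) →
    ∃ C : LF k v r D, C.R = ICl v B.R (fixO K N H) ∧ B.Ext C

theorem mon_mem {B : LF k v r D} {p : ℕ} {u : Fin r → 𝕂} (hu : GoodBasis B.Γ ∅ u)
    (μ : (Fin r → Fin p) × (Fin D → Fin p)) : mon (fun i => B.χ (u i)) B.y μ ∈ B.R :=
  B.R.mul_mem (B.R.prod_mem fun i _ => B.R.pow_mem (B.χ_mem _ (hu.mem i) (hu.pos i).le) _)
    (B.R.prod_mem fun j _ => B.R.pow_mem (B.y_mem j) _)

/-- One step: `p`-coordinates of the localised normalisation in `K(ζ)`. -/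
theorem coord_step [IsAlgClosed Ω] (p : ℕ) [hp : Fact p.Prime] [CharP Ω p] (B : LF k v r D)
    {K E : IntermediateField k Ω} (hB : FracIs B.R K) (hN : Nrm B.R K) (hc : B.Coord p B.R)
    {ζ : Ω} (hsep : IsSeparable K ζ) (hE : KT K {ζ} = E)
    (hζ : IsIntegral (invS B.R (XS B)) ζ)
    (hd : ∀ θ' θ'' : Ω, aeval θ' (minpoly K ζ) = 0 → aeval θ'' (minpoly K ζ) = 0 → θ' ≠ θ'' →
      IsIntegral (invS B.R (XS B)) (θ' - θ'')⁻¹) : B.Coord p (ICl v B.R E) := by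
  have hKE : K ≤ E := by
    rw [← hE]
    exact le_KT _ _
  have hle : B.R ≤ ICl v B.R E := le_ICl fun f hf => hKE (hB.1 f hf)
  intro u hu a ha
  have h1 : PC p B.R (XS B) (fun μ : (Fin r → Fin p) × (Fin D → Fin p) =>
      mon (fun i => B.χ (u i)) B.y μ) := by
    intro a ha
    obtain ⟨c, hc, e⟩ := hc u hu a ha
    exact ⟨c, fun μ => (mem_invS_iff le_rfl).2 (hc μ), e⟩
  obtain ⟨c, hc, e⟩ := pcoord_disc p hB hN (XS_ne B) hsep hE hζ hd
    (fun μ => le_invS (mon_mem hu μ)) h1 a ha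
  exact ⟨c, fun μ => (mem_invS_iff hle).1 (hc μ), e⟩

/-- **The tower of the roots.** -/
theorem tower [IsAlgClosed Ω] (p : ℕ) [hp : Fact p.Prime] [CharP Ω p] (hcore : Core k v p r D)
    (B : LF k v r D) {K₀ : IntermediateField k Ω} (hB : FracIs B.R K₀)
    (htr : Algebra.trdeg k K₀ = ((r + D : ℕ) : Cardinal.{u})) {L : IntermediateField K₀ Ω}
    [FiniteDimensional K₀ L] [IsGalois K₀ L] (A : Polynomial K₀) (hA0 : A ≠ 0)
    (hroot : ∀ ζ ∈ A.rootSet Ω, IsIntegral (invS B.R (XS B)) ζ)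
    (hdiff : ∀ ζ ∈ A.rootSet Ω, ∀ ζ' ∈ A.rootSet Ω, ζ ≠ ζ' →
      IsIntegral (invS B.R (XS B)) (ζ - ζ')⁻¹)
    (horb : ∀ ζ ∈ A.rootSet Ω, {x : Ω | ∃ σ ∈ decP v B.R K₀ L, ∃ z : L, (z : Ω) = ζ ∧
      x = ((σ z : L) : Ω)}.ncard < p)
    (T : Finset Ω) (hT : ∀ ζ ∈ T, ζ ∈ A.rootSet Ω) (hTL : ∀ ζ ∈ T, ζ ∈ L) :
    ∃ C : LF k v r D, C.R = ICl v B.R (KT K₀ (T : Set Ω)) ∧ B.Ext C := by
  classical
  have hfinL : ∀ ζ : Ω, {x : Ω | ∃ σ ∈ decP v B.R K₀ L, ∃ z : L, (z : Ω) = ζ ∧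
      x = ((σ z : L) : Ω)}.Finite := by
    intro ζ
    by_cases h : ζ ∈ L
    · refine (Set.finite_range fun σ : L ≃ₐ[K₀] L => ((σ ⟨ζ, h⟩ : L) : Ω)).subset ?_
      rintro _ ⟨σ, -, z, hz, rfl⟩
      refine ⟨σ, ?_⟩
      have : z = ⟨ζ, h⟩ := Subtype.ext hz
      rw [this]
    · convert Set.finite_empty
      ext x
      simp only [Set.mem_ofPred_eq, Set.mem_empty_iff_false, iff_false]
      rintro ⟨σ, -, z, hz, -⟩
      exact h (hz ▸ z.2)
  induction T using Finset.induction_on with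
  | empty =>
    refine ⟨B, ?_, ext_refl B⟩
    rw [Finset.coe_empty, KT_empty, ICl_self B hB (hcore.nrm B K₀ hB htr)]
  | insert ζ T hζT ih =>
    obtain ⟨C, hCR, hC⟩ := ih (fun x hx => hT x (Finset.mem_insert_of_mem hx))
      (fun x hx => hTL x (Finset.mem_insert_of_mem hx))
    have hζA : ζ ∈ A.rootSet Ω := hT ζ (Finset.mem_insert_self _ _)
    have hζL : ζ ∈ L := hTL ζ (Finset.mem_insert_self _ _)
    set K₁ := KT K₀ (T : Set Ω) with hK₁
    have h0 : K₀ ≤ K₁ := le_KT _ _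
    have hL0 : K₀ ≤ L.restrictScalars k := fun x hx => L.algebraMap_mem ⟨x, hx⟩
    have h1 : K₁ ≤ L.restrictScalars k :=
      KT_le hL0 fun x hx => hTL x (Finset.mem_insert_of_mem hx)
    obtain ⟨hfd, hgal⟩ := finGal_upN (L := L) h0 h1
    have halgL : ∀ g ∈ L, IsAlgebraic K₀ g := fun g hg => by
      have h2 : IsAlgebraic K₀ (⟨g, hg⟩ : L) := Algebra.IsAlgebraic.isAlgebraic _
      exact h2.algebraMap (A := Ω)
    have hfrac : FracIs C.R K₁ := by
      rw [hCR]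
      exact frac_ICl hB h0 fun g hg => halgL g (h1 hg)
    have htr₁ : Algebra.trdeg k K₁ = ((r + D : ℕ) : Cardinal.{u}) := by
      rw [trdeg_eq_of_alg h0 fun g hg => halgL g (h1 hg), htr]
    have hN := hcore.nrm C K₁ hfrac htr₁
    have hCc := hcore.coord C K₁ hfrac htr₁
    let z : upN L h1 := ⟨ζ, hζL⟩
    -- separability
    have hsep : IsSeparable K₁ ζ := by
      have h2 : IsSeparable K₁ z := Algebra.IsSeparable.isSeparable K₁ z
      have h3 : minpoly K₁ ζ = minpoly K₁ z :=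
        (minpoly.algebraMap_eq (B := upN L h1) (B' := Ω) (algebraMap (upN L h1) Ω).injective z)
      unfold IsSeparable at h2 ⊢
      rw [h3]
      exact h2
    -- the conjugates are roots of `A`
    have hconj : ∀ θ : Ω, aeval θ (minpoly K₁ ζ) = 0 → θ ∈ A.rootSet Ω := by
      intro θ hθ
      let ι : K₀ →+* K₁ := (IntermediateField.inclusion h0).toRingHom
      have hι : (algebraMap K₁ Ω).comp ι = algebraMap K₀ Ω := rfl
      have h2 : aeval ζ (A.map ι) = 0 := by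
        rw [aeval_def, eval₂_map, hι, ← aeval_def]
        exact (mem_rootSet.1 hζA).2
      obtain ⟨Q, hQ⟩ := minpoly.dvd K₁ ζ h2
      have h3 : aeval θ (A.map ι) = 0 := by rw [hQ, map_mul, hθ, zero_mul]
      rw [aeval_def, eval₂_map, hι, ← aeval_def] at h3
      exact mem_rootSet.2 ⟨hA0, h3⟩
    have hfix : fixO K₁ (upN L h1) (St (upN L h1) z) = KT K₁ {ζ} := fixO_St z
    have hidx : (St (upN L h1) z).relIndex (decP v C.R K₁ (upN L h1)) < p := by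
      refine lt_of_le_of_lt (relIndex_St_le _ z (hfinL ζ) fun σ hσ => ?_) (horb ζ hζA)
      exact ⟨res h0 h1 σ, res_mem_decP h0 h1 hB.1 hC.le hσ, ⟨ζ, hζL⟩, rfl, rfl⟩
    have hco : C.Coord p (ICl v C.R (fixO K₁ (upN L h1) (St (upN L h1) z))) := by
      refine coord_step p C hfrac hN hCc hsep hfix.symm (ext_int hC (hroot ζ hζA)) ?_
      intro θ' θ'' h2 h3 h4
      exact ext_int hC (hdiff _ (hconj _ h2) _ (hconj _ h3) h4)
    obtain ⟨C', hC'R, hC'⟩ := hcore.z C K₁ (upN L h1) (St (upN L h1) z) hfrac htr₁ hidx hco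
    refine ⟨C', ?_, ext_trans hC hC'⟩
    rw [hC'R, hfix, hCR, Finset.coe_insert, ← KT_insert]
    exact ICl_ICl (le_KT _ _) fun f hf => h0 (hB.1 f hf)

/-- **Row 3.1**: the localised normalisation in the splitting field of `A` is a frame. -/
theorem tower_top [IsAlgClosed Ω] (p : ℕ) [hp : Fact p.Prime] [CharP Ω p]
    (hcore : Core k v p r D) (B : LF k v r D) {K₀ : IntermediateField k Ω} (hB : FracIs B.R K₀)
    (htr : Algebra.trdeg k K₀ = ((r + D : ℕ) : Cardinal.{u})) {L : IntermediateField K₀ Ω}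
    [FiniteDimensional K₀ L] [IsGalois K₀ L] (A : Polynomial K₀) (hA0 : A ≠ 0)
    (hL : L = IntermediateField.adjoin K₀ (A.rootSet Ω))
    (hroot : ∀ ζ ∈ A.rootSet Ω, IsIntegral (invS B.R (XS B)) ζ)
    (hdiff : ∀ ζ ∈ A.rootSet Ω, ∀ ζ' ∈ A.rootSet Ω, ζ ≠ ζ' →
      IsIntegral (invS B.R (XS B)) (ζ - ζ')⁻¹)
    (horb : ∀ ζ ∈ A.rootSet Ω, {x : Ω | ∃ σ ∈ decP v B.R K₀ L, ∃ z : L, (z : Ω) = ζ ∧
      x = ((σ z : L) : Ω)}.ncard < p) :
    ∃ C : LF k v r D, C.R = ICl v B.R (L.restrictScalars k) ∧ B.Ext C := by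
  classical
  have h1 : ∀ ζ ∈ A.rootSet Ω, ζ ∈ L := fun ζ hζ => by
    rw [hL]
    exact IntermediateField.subset_adjoin _ _ hζ
  obtain ⟨C, hC, hC'⟩ := tower p hcore B hB htr A hA0 hroot hdiff horb
    (A.rootSet_finite Ω).toFinset (fun ζ hζ => (A.rootSet_finite Ω).mem_toFinset.1 hζ)
    (fun ζ hζ => h1 ζ ((A.rootSet_finite Ω).mem_toFinset.1 hζ))
  refine ⟨C, ?_, hC'⟩
  rw [hC, Set.Finite.coe_toFinset]
  congr 1
  subst hL
  rfl

end Pool.Agent.TGL85
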