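import Pool.Agent.Lib.TGL.Step
import Pool.Agent.Lib.TGL_h85.Tower
import Pool.Agent.Lib.ALLZO.Z1d

/-!
# TANK G, track L: monomials of a limit frame; `F ∩ (localised normalisation in N) = R`
-/

set_option autoImplicit false

namespace Pool.Agent.TGL85

open Pool.Agent.TAO (OVal VPos Ctx0)
open Pool.Agent.LU1 (FracIs fixO mem_fixO)
open Pool.Agent.ALLO (locv icl ICl decP)
open Pool.Agent.ALLZO (GoodBasis NRing)
open Pool.Agent.TGL (LF Mo)

universe u w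

variable {k Ω : Type u} [Field k] [Field Ω] [Algebra k Ω]
  {𝕂 : Type w} [Field 𝕂] [LinearOrder 𝕂] [IsStrictOrderedRing 𝕂] {v : OVal 𝕂 Ω} {r D n : ℕ}

/-! ### Units and monomials -/

theorem Un_mul {B : LF k v r D} {f g : Ω} (hf : B.Un f) (hg : B.Un g) : B.Un (f * g) :=
  ⟨B.R.mul_mem hf.1 hg.1, mul_ne_zero hf.2.1 hg.2.1, by
    rw [v.map_mul hf.2.1 hg.2.1, hf.2.2, hg.2.2, add_zero]⟩

theorem v_inv {f : Ω} (h0 : f ≠ 0) : v f⁻¹ = -v f := by
  have h1 := v.map_mul h0 (inv_ne_zero h0)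
  rw [mul_inv_cancel₀ h0, v.map_one] at h1
  linarith

theorem Un_inv' {B : LF k v r D} {f : Ω} (hf : B.Un f) : B.Un f⁻¹ :=
  ⟨Un_inv hf, inv_ne_zero hf.2.1, by rw [v_inv hf.2.1, hf.2.2, neg_zero]⟩

theorem Un_one (B : LF k v r D) : B.Un 1 := ⟨B.R.one_mem, one_ne_zero, v.map_one⟩

theorem Un_of_le {B : LF k v r D} {r' D' : ℕ} {C : LF k v r' D'} (h : B.R ≤ C.R) {f : Ω}
    (hf : B.Un f) : C.Un f := ⟨h hf.1, hf.2⟩

/-- An element `χ(γ) u`, `u` a unit. -/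
theorem mono_of_Un {B : LF k v r D} {f : Ω} {γ : 𝕂} (hγ : γ ∈ B.Γ) (h : B.Un (f / B.χ γ)) :
    B.Mono f := by
  have hχ := B.χ_ne γ hγ
  have h0 : f ≠ 0 := by
    rintro rfl
    exact h.2.1 (zero_div _)
  have hv : v f = γ := by
    have h1 := v.map_mul h.2.1 hχ
    rw [div_mul_cancel₀ _ hχ, h.2.2, zero_add, B.χ_val γ hγ] at h1
    exact h1
  exact ⟨h0, by rw [hv]; exact hγ, by rw [hv]; exact h⟩

theorem Mono_mul {B : LF k v r D} {f g : Ω} (hf : B.Mono f) (hg : B.Mono g) : B.Mono (f * g) := by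
  refine mono_of_Un (B.Γ.add_mem hf.2.1 hg.2.1) ?_
  rw [B.χ_add _ hf.2.1 _ hg.2.1, mul_div_mul_comm]
  exact Un_mul hf.2.2 hg.2.2

theorem Mono_inv {B : LF k v r D} {f : Ω} (hf : B.Mono f) : B.Mono f⁻¹ := by
  refine mono_of_Un (B.Γ.neg_mem hf.2.1) ?_
  rw [χ_neg B hf.2.1, ← inv_div_inv, inv_inv, inv_inv]
  have h1 := Un_inv' hf.2.2
  rwa [inv_div, ← inv_div_inv, inv_div_inv] at h1

theorem Mono_Un {B : LF k v r D} {f : Ω} (hf : B.Un f) : B.Mono f := by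
  refine mono_of_Un B.Γ.zero_mem ?_
  rw [χ_zero, div_one]
  exact hf

theorem Mono_χ (B : LF k v r D) {γ : 𝕂} (hγ : γ ∈ B.Γ) : B.Mono (B.χ γ) := by
  refine mono_of_Un hγ ?_
  rw [div_self (B.χ_ne γ hγ)]
  exact Un_one B

/-- The monomials in a set of monomials. -/
theorem Mono_of_Mo {B : LF k v r D} {S : Set Ω} (hS : ∀ s ∈ S, B.Mono s) {x : Ωˣ}
    (hx : x ∈ Mo S) : B.Mono (x : Ω) := by
  unfold Mo at hx
  induction hx using Subgroup.closure_induction with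
  | mem x hx => exact hS _ hx
  | one => exact Mono_Un (Un_one B)
  | mul x y _ _ hx hy => rw [Units.val_mul]; exact Mono_mul hx hy
  | inv x _ hx => rw [Units.val_inv_eq_inv_val]; exact Mono_inv hx

theorem Mo_mem {S : Set Ω} {F : IntermediateField k Ω} (hS : ∀ s ∈ S, s ∈ F) {x : Ωˣ}
    (hx : x ∈ Mo S) : (x : Ω) ∈ F := by
  unfold Mo at hx
  induction hx using Subgroup.closure_induction with
  | mem x hx => exact hS _ hx
  | one => rw [Units.val_one]; exact F.one_mem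
  | mul x y _ _ hx hy => rw [Units.val_mul]; exact F.mul_mem hx hy
  | inv x _ hx => rw [Units.val_inv_eq_inv_val]; exact F.inv_mem hx

/-- A monomial of `B` is a monomial of every frame in which the `B.χ γ` are monomials. -/
theorem Mono_trans {B : LF k v r D} {r' D' : ℕ} {C : LF k v r' D'} (hle : B.R ≤ C.R)
    (hχ : ∀ γ ∈ B.Γ, C.Mono (B.χ γ)) {f : Ω} (hf : B.Mono f) : C.Mono f := by
  have h1 : f = B.χ (v f) * (f / B.χ (v f)) := by
    have := B.χ_ne _ hf.2.1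
    field_simp
  rw [h1]
  exact Mono_mul (hχ _ hf.2.1) (Mono_Un (Un_of_le hle hf.2.2))

theorem Mono_ext {B C : LF k v r D} (h : B.Ext C) {f : Ω} (hf : B.Mono f) : C.Mono f :=
  Mono_trans h.le (fun γ hγ => mono_of_Un (h.Γ_le γ hγ) (h.χ_un γ hγ)) hf

/-- A monomial times a monomial of big value is in the ring. -/
theorem χ_mul_mem {B : LF k v r D} {f : Ω} (hf : B.Mono f) {γ : 𝕂} (hγ : γ ∈ B.Γ)
    (h : -v f ≤ γ) : B.χ γ * f ∈ B.R := by
  have h1 : B.χ γ * f = B.χ (γ + v f) * (f / B.χ (v f)) := by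
    rw [B.χ_add _ hγ _ hf.2.1]
    have := B.χ_ne _ hf.2.1
    field_simp
  rw [h1]
  exact B.R.mul_mem (B.χ_mem _ (B.Γ.add_mem hγ hf.2.1) (by linarith)) hf.2.2.1

/-! ### The ring cut with `F` -/

/-- `F ∩ ICl v R N = R`. -/
theorem mem_of_mem_ICl (h : Ctx0 k v n) {F : IntermediateField k Ω} {N : IntermediateField F Ω}
    [FiniteDimensional F N] [IsGalois F N] {R : Subalgebra k Ω} (hR : NRing v F R) {f : Ω}
    (hf : f ∈ F) (hf' : f ∈ ICl v R (N.restrictScalars k)) : f ∈ R := by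
  let a : N := algebraMap F N ⟨f, hf⟩
  have ha : (a : Ω) ∈ ALLZO.CN v R N := hf'
  obtain ⟨s, t, hs, ht, hsf, htf, ht0, ht1, hst⟩ := ALLZO.CN_frac_H h hR
    (⊤ : Subgroup (N ≃ₐ[F] N)) ha fun σ _ => σ.commutes _
  have key : ∀ s : N, IsIntegral R (s : Ω) → (∀ σ ∈ (⊤ : Subgroup (N ≃ₐ[F] N)), σ s = s) →
      (s : Ω) ∈ R := by
    intro s hs hsf
    have h1 : s ∈ IntermediateField.fixedField (⊤ : Subgroup (N ≃ₐ[F] N)) := by
      rw [IntermediateField.mem_fixedField_iff]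
      exact hsf
    rw [IsGalois.fixedField_top, IntermediateField.mem_bot] at h1
    obtain ⟨y, rfl⟩ := h1
    exact hR.normal _ y.2 hs
  have h2 : f = (s : Ω) / (t : Ω) := congrArg (fun x : N => (x : Ω)) hst
  rw [h2, div_eq_mul_inv]
  exact R.mul_mem (key s hs hsf) (hR.loc _ (key t ht htf) ht0 ht1)

end Pool.Agent.TGL85
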