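import Pool.Agent.Lib.TGL.Step
import Pool.Agent.Lib.TGL_h85.Tower

/-!
# TANK G, track L, row 3.1: the tower in the form of the rows file
-/

set_option autoImplicit false

open Polynomial

namespace Pool.Agent.TGL85

open Pool.Agent.TAO (OVal VPos)
open Pool.Agent.LU1 (FracIs fixO mem_fixO)
open Pool.Agent.ALLO (locv icl ICl decP)
open Pool.Agent.ALLZO (GoodBasis)
open Pool.Agent.TGL (LF mon)
open Pool.Agent.TGBh66 (invS PC Nrm mem_invS le_invS invS_mono isIntegral_mono isIntegral_of_mem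
  le_ICl ICl_ICl pcoord_disc)

universe u w

variable {k Ω : Type u} [Field k] [Field Ω] [Algebra k Ω]
  {𝕂 : Type w} [Field 𝕂] [LinearOrder 𝕂] [IsStrictOrderedRing 𝕂] {v : OVal 𝕂 Ω} {r D : ℕ}

/-- Integrality over `R[1/χ]`. -/
theorem int_invS {B : LF k v r D} {f : Ω} (h : ∃ γ ∈ B.Γ, IsIntegral B.R (B.χ γ * f)) :
    IsIntegral (invS B.R (XS B)) f := by
  obtain ⟨γ, hγ, h1⟩ := h
  have h2 : f = B.χ (-γ) * (B.χ γ * f) := by
    rw [χ_neg B hγ, inv_mul_cancel_left₀ (B.χ_ne γ hγ)]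
  have h3 : B.χ (-γ) ∈ invS B.R (XS B) := by
    rw [mem_invS_iff le_rfl]
    refine ⟨γ, hγ, ?_⟩
    rw [χ_neg B hγ, mul_inv_cancel₀ (B.χ_ne γ hγ)]
    exact B.R.one_mem
  rw [h2]
  exact (isIntegral_of_mem h3).mul (isIntegral_mono le_invS h1)

/-- A finite Galois-stable set is the set of roots of a polynomial. -/
theorem exists_poly {L₀ : IntermediateField k Ω} {L : IntermediateField L₀ Ω}
    [FiniteDimensional L₀ L] [IsGalois L₀ L] (Rt : Finset Ω) (hL : ∀ a ∈ Rt, a ∈ L)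
    (hstab : ∀ σ : L ≃ₐ[L₀] L, ∀ a : L, (a : Ω) ∈ Rt → ((σ a : L) : Ω) ∈ Rt) :
    ∃ A : Polynomial L₀, A ≠ 0 ∧ A.rootSet Ω = (Rt : Set Ω) := by
  classical
  have hint : ∀ a ∈ Rt, IsIntegral L₀ a := fun a ha => by
    have h1 : IsIntegral L₀ (⟨a, hL a ha⟩ : L) := Algebra.IsIntegral.isIntegral _
    exact h1.map (IsScalarTower.toAlgHom L₀ L Ω)
  have hA0 : (∏ a ∈ Rt, minpoly L₀ a) ≠ 0 :=
    Finset.prod_ne_zero_iff.2 fun a ha => minpoly.ne_zero (hint a ha)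
  refine ⟨∏ a ∈ Rt, minpoly L₀ a, hA0, ?_⟩
  ext θ
  rw [mem_rootSet, Finset.mem_coe]
  constructor
  · rintro ⟨-, h1⟩
    rw [map_prod, Finset.prod_eq_zero_iff] at h1
    obtain ⟨a, ha, h2⟩ := h1
    let b : L := ⟨a, hL a ha⟩
    have h3 : minpoly L₀ a = minpoly L₀ b :=
      minpoly.algebraMap_eq (B := L) (B' := Ω) (algebraMap L Ω).injective b
    have hsp : ((minpoly L₀ b).map (algebraMap L₀ L)).Splits := Normal.splits inferInstance b
    have h4 : θ ∈ (minpoly L₀ b).rootSet Ω := by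
      rw [mem_rootSet, ← h3]
      exact ⟨minpoly.ne_zero (hint a ha), h2⟩
    rw [← hsp.image_rootSet (IsScalarTower.toAlgHom L₀ L Ω)] at h4
    obtain ⟨c, hc, rfl⟩ := h4
    obtain ⟨σ, hσ⟩ := minpoly.exists_algEquiv_of_root' (K := L₀) (L := L) (x := c) (y := b)
      (Algebra.IsAlgebraic.isAlgebraic b) (mem_rootSet.1 hc).2
    have h5 := hstab σ b ha
    rw [hσ] at h5
    exact h5
  · intro ha
    refine ⟨hA0, ?_⟩
    rw [map_prod, Finset.prod_eq_zero_iff]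
    exact ⟨θ, ha, minpoly.aeval L₀ θ⟩

/-- **Row 3.1** in the form of the rows file, from the facts `Core`. -/
theorem tower_row {p : ℕ} [hp : Fact p.Prime] [CharP Ω p] [IsAlgClosed Ω]
    (hcore : Core k v p r D) (B : LF k v r D) {L₀ : IntermediateField k Ω}
    (hL₀ : FracIs B.R L₀) (htr : Algebra.trdeg k L₀ = ((r + D : ℕ) : Cardinal.{u}))
    {L : IntermediateField L₀ Ω} [FiniteDimensional L₀ L] [IsGalois L₀ L] (Rt : Finset Ω)
    (hRt : IntermediateField.adjoin L₀ (Rt : Set Ω) = L)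
    (hstab : ∀ σ : L ≃ₐ[L₀] L, ∀ a : L, (a : Ω) ∈ Rt → ((σ a : L) : Ω) ∈ Rt)
    (hint : ∀ a ∈ Rt, ∃ γ ∈ B.Γ, IsIntegral B.R (B.χ γ * a))
    (hdiff : ∀ a ∈ Rt, ∀ b ∈ Rt, a ≠ b → B.UnI (a - b))
    (horb : ∀ a : L, (a : Ω) ∈ Rt → (MulAction.orbit (decP v B.R L₀ L) a).ncard < p) :
    ∃ C : LF k v r D, C.R = ICl v B.R (L.restrictScalars k) ∧ B.Ext C := by
  have hmemL : ∀ a ∈ Rt, a ∈ L := fun a ha => by
    rw [← hRt]
    exact IntermediateField.subset_adjoin _ _ ha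
  obtain ⟨A, hA0, hA⟩ := exists_poly (L := L) Rt hmemL hstab
  refine tower_top p hcore B hL₀ htr A hA0 (by rw [hA, hRt]) ?_ ?_ ?_
  · intro ζ hζ
    rw [hA] at hζ
    exact int_invS (hint ζ hζ)
  · intro ζ hζ ζ' hζ' hne
    rw [hA] at hζ hζ'
    exact int_invS (hdiff ζ hζ ζ' hζ' hne).2.2
  · intro ζ hζ
    rw [hA] at hζ
    refine lt_of_le_of_lt ?_ (horb ⟨ζ, hmemL ζ hζ⟩ hζ)
    have hfin : (MulAction.orbit (decP v B.R L₀ L) (⟨ζ, hmemL ζ hζ⟩ : L)).Finite :=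
      Set.finite_range _
    rw [← Set.ncard_image_of_injective _ (Subtype.val_injective (p := fun x => x ∈ L))]
    refine Set.ncard_le_ncard ?_ (hfin.image _)
    rintro _ ⟨σ, hσ, z, hz, rfl⟩
    refine ⟨σ z, ⟨⟨σ, hσ⟩, ?_⟩, rfl⟩
    have : z = ⟨ζ, hmemL ζ hζ⟩ := Subtype.ext hz
    rw [this]
    rfl

end Pool.Agent.TGL85
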